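import Pool.Agent.Y395.GX.Stm

set_option autoImplicit false

/-! All forests simultaneously (helper74). -/

namespace Pool.Agent.Y74.GX

open Finset Pool.Agent.Y395.GX

section acyclic

variable {V W : Type} (e : V ↪ W) (T : SimpleGraph V)

theorem supp_range {u v : W} (w : (T.map e).Walk u v) (hu : u ∈ Set.range e) :
    ∀ x ∈ w.support, x ∈ Set.range e := by
  induction w with
  | nil =>
    intro x hx
    rw [SimpleGraph.Walk.support_nil, List.mem_singleton] at hx
    rw [hx]
    exact hu
  | @cons a b c h p ih =>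
    intro x hx
    rw [SimpleGraph.Walk.support_cons, List.mem_cons] at hx
    rcases hx with rfl | hx
    · exact hu
    · refine ih ?_ x hx
      rw [SimpleGraph.map_adj] at h
      obtain ⟨i, j, _, _, hj⟩ := h
      exact ⟨j, hj⟩

theorem acyclic_map (hT : T.IsAcyclic) : (T.map e).IsAcyclic := by
  have h1 : ((T.map e).induce (Set.range e)).IsAcyclic := by
    refine SimpleGraph.IsAcyclic.comap (G' := T)
      { toFun := fun x => (Equiv.ofInjective e e.injective).symm x
        map_rel' := ?_ } ?_ hT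
    · intro x y hxy
      obtain ⟨i, rfl⟩ := (Equiv.ofInjective e e.injective).surjective x
      obtain ⟨j, rfl⟩ := (Equiv.ofInjective e e.injective).surjective y
      rw [Equiv.symm_apply_apply, Equiv.symm_apply_apply]
      have h2 : (T.map e).Adj (e i) (e j) := hxy
      exact SimpleGraph.map_adj_apply.1 h2
    · exact (Equiv.ofInjective e e.injective).symm.injective
  intro a c hc
  have ha : a ∈ Set.range e := by
    cases c with
    | nil => exact absurd rfl hc.ne_nil
    | cons h p =>
      rw [SimpleGraph.map_adj] at h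
      obtain ⟨i, j, _, hi, _⟩ := h
      exact ⟨i, hi⟩
  have hs := supp_range e T c ha
  refine h1 (c.induce (Set.range e) hs) ?_
  have h3 : ((c.induce (Set.range e) hs).map
      (SimpleGraph.Embedding.induce (G := T.map e) (Set.range e)).toHom).IsCycle := by
    rw [SimpleGraph.Walk.map_induce]
    exact hc
  exact SimpleGraph.Walk.IsCycle.of_map h3

end acyclic

open scoped Classical in
theorem half_ex {α : Type} (E : Finset α) (P : Finset α → Prop) :
    Ex (1 / 2) E (fun F => if P F then 0 else 1) =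
      (1 / 2) ^ E.card * ((E.powerset.filter (fun F => ¬ P F)).card : ℝ) := by
  unfold Ex
  rw [card_filter, Nat.cast_sum, mul_sum]
  refine sum_congr rfl fun F hF => ?_
  have hc : F.card ≤ E.card := card_le_card (mem_powerset.1 hF)
  have h1 : (1 / 2 : ℝ) ^ F.card * (1 - 1 / 2) ^ (E.card - F.card) = (1 / 2) ^ E.card := by
    rw [show (1 : ℝ) - 1 / 2 = 1 / 2 by norm_num, ← pow_add, Nat.add_sub_cancel' hc]
  rw [h1]
  by_cases h : P F <;> simp [h]

open scoped Classical in
/-- the smaller neighbour -/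
noncomputable def par {f : ℕ} (T : SimpleGraph (Fin f)) (i : Fin f) : Fin f :=
  if h : ∃ j, j < i ∧ T.Adj i j then h.choose else i

theorem par_iff {f : ℕ} {T : SimpleGraph (Fin f)} (hT : Nice T) (i j : Fin f) :
    (j < i ∧ T.Adj i j) ↔ (par T i = j ∧ j < i) := by
  unfold par
  constructor
  · intro h
    have hex : ∃ j, j < i ∧ T.Adj i j := ⟨j, h⟩
    rw [dif_pos hex]
    exact ⟨hT i _ _ hex.choose_spec.1 h.1 hex.choose_spec.2 h.2, h.1⟩
  · rintro ⟨h1, h2⟩
    split_ifs at h1 with hex
    · rw [← h1]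
      exact hex.choose_spec
    · exact absurd h1 h2.ne'

open scoped Classical in
theorem nice_card (f : ℕ) :
    ((univ : Finset (SimpleGraph (Fin f))).filter (fun T => Nice T)).card ≤ f ^ f := by
  have h1 : ((univ : Finset (SimpleGraph (Fin f))).filter (fun T => Nice T)).card ≤
      (univ : Finset (Fin f → Fin f)).card := by
    refine card_le_card_of_injOn par (fun _ _ => mem_univ _) ?_
    intro T hT T' hT' h
    have hT1 : Nice T := (mem_filter.1 hT).2
    have hT2 : Nice T' := (mem_filter.1 hT').2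
    have key : ∀ i j : Fin f, j < i → (T.Adj i j ↔ T'.Adj i j) := by
      intro i j hij
      have e1 := par_iff hT1 i j
      have e2 := par_iff hT2 i j
      rw [h] at e1
      constructor
      · intro h3
        exact (e2.2 (e1.1 ⟨hij, h3⟩)).2
      · intro h3
        exact (e1.2 (e2.1 ⟨hij, h3⟩)).2
    ext i j
    rcases lt_trichotomy j i with h3 | h3 | h3
    · exact key i j h3
    · subst h3
      exact ⟨fun h4 => absurd rfl h4.ne, fun h4 => absurd rfl h4.ne⟩
    · rw [T.adj_comm, T'.adj_comm]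
      exact key j i h3
  refine h1.trans ?_
  rw [card_univ, Fintype.card_fun, Fintype.card_fin]

theorem exists_nice (hO : SOrd) {V : Type} {H : SimpleGraph V} {f : ℕ}
    (h : ¬ ∀ (m : ℕ) (T : SimpleGraph (Fin m)), m ≤ f → T.IsAcyclic → T.IsIndContained H) :
    ∃ T : SimpleGraph (Fin f), Nice T ∧ T.IsAcyclic ∧ ¬ T.IsIndContained H := by
  push Not at h
  obtain ⟨m, T, hm, hT, hn⟩ := h
  obtain ⟨T', hN, ⟨φ⟩⟩ := hO f (T.map (Fin.castLEEmb hm)) (acyclic_map _ _ hT)
  refine ⟨T', hN, φ.isAcyclic_iff.1 (acyclic_map _ _ hT), fun h1 => hn ?_⟩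
  have h2 : T.IsIndContained (T.map (Fin.castLEEmb hm)) := ⟨SimpleGraph.Embedding.map _ _⟩
  have h3 : (T.map (Fin.castLEEmb hm)).IsIndContained T' := ⟨φ.toEmbedding⟩
  exact (h2.trans h3).trans h1

theorem main (hO : SOrd) : SAll := by
  classical
  intro V _ G f ε _ hε h
  set N := (univ : Finset (SimpleGraph (Fin f))).filter (fun T => Nice T ∧ T.IsAcyclic) with hN
  set B : SimpleGraph (Fin f) → Finset (Finset (Sym2 V)) := fun T =>
    (ed G).powerset.filter (fun F => ¬ T.IsIndContained (gr F)) with hB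
  have hNc : N.card ≤ f ^ f := by
    refine le_trans (card_le_card ?_) (nice_card f)
    intro T hT
    rw [mem_filter] at hT ⊢
    exact ⟨mem_univ _, hT.2.1⟩
  have hsub : (ed G).powerset.filter (fun F => ¬ ∀ (m : ℕ) (T : SimpleGraph (Fin m)), m ≤ f →
      T.IsAcyclic → T.IsIndContained (gr F)) ⊆ N.biUnion B := by
    intro F hF
    rw [mem_filter] at hF
    obtain ⟨T, h1, h2, h3⟩ := exists_nice hO hF.2
    rw [mem_biUnion]
    exact ⟨T, mem_filter.2 ⟨mem_univ _, h1, h2⟩, mem_filter.2 ⟨hF.1, h3⟩⟩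
  have hBc : ∀ T ∈ N, ((B T).card : ℝ) ≤ ε * (ed G).powerset.card := by
    intro T hT
    have h1 := h T (mem_filter.1 hT).2.2
    rw [half_ex] at h1
    have h2 : ((ed G).powerset.card : ℝ) = 2 ^ (ed G).card := by
      rw [card_powerset]
      push_cast
      rfl
    rw [h2]
    have h3 : (0 : ℝ) < 2 ^ (ed G).card := by positivity
    have h4 : (1 / 2 : ℝ) ^ (ed G).card * 2 ^ (ed G).card = 1 := by
      rw [← mul_pow]
      norm_num
    have h5 := mul_le_mul_of_nonneg_right h1 h3.le
    calc ((B T).card : ℝ) = (1 / 2 : ℝ) ^ (ed G).card * 2 ^ (ed G).card * (B T).card := by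
          rw [h4, one_mul]
      _ = (1 / 2 : ℝ) ^ (ed G).card * (B T).card * 2 ^ (ed G).card := by ring
      _ ≤ ε * 2 ^ (ed G).card := h5
  calc (((ed G).powerset.filter (fun F => ¬ ∀ (m : ℕ) (T : SimpleGraph (Fin m)), m ≤ f →
        T.IsAcyclic → T.IsIndContained (gr F))).card : ℝ)
      ≤ ((N.biUnion B).card : ℝ) := by exact_mod_cast card_le_card hsub
    _ ≤ ((∑ T ∈ N, (B T).card : ℕ) : ℝ) := by exact_mod_cast card_biUnion_le
    _ = ∑ T ∈ N, ((B T).card : ℝ) := by push_cast; rfl
    _ ≤ ∑ _T ∈ N, ε * (ed G).powerset.card := sum_le_sum hBc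
    _ = N.card * (ε * (ed G).powerset.card) := by rw [sum_const, nsmul_eq_mul]
    _ ≤ (f : ℝ) ^ f * (ε * (ed G).powerset.card) := by
        apply mul_le_mul_of_nonneg_right _ (by positivity)
        exact_mod_cast hNc
    _ = (f : ℝ) ^ f * ε * (ed G).powerset.card := by ring

end Pool.Agent.Y74.GX
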